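import Pool.Agent.W552.AS
import Pool.Agent.Y133.Half.Growth

/-!
# Linear combinations of algebraic classes with coefficients in the coefficient field
-/

open CategoryTheory AlgebraicGeometry

universe u v

namespace Pool.Agent.R910

open Pool.Agent.H914 Pool.Agent.H914.VarClass Pool.Agent.H914.VarClass.Obj
  Pool.Agent.H914.WeilCohomology Pool.Agent.Y133.Half Pool.Agent.H281R3.HT

variable {k : Type u} [Field k] {𝒱 : VarClass k} {ops : CycleOps 𝒱}
  {W : WeilCohomology.{u, v} ops} {X Y Z : 𝒱.Obj}

/-- The span of the algebraic classes of all codimensions. -/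
def KA (W : WeilCohomology.{u, v} ops) (X : 𝒱.Obj) : Submodule W.K (W.H X) :=
  Submodule.span W.K {x | W552.AS W X x}

lemma KA.of {x : W.H X} (hx : W552.AS W X x) : x ∈ KA W X := Submodule.subset_span hx

lemma KA.mul {x y : W.H X} (hx : x ∈ KA W X) (hy : y ∈ KA W X) : x * y ∈ KA W X := by
  induction hx using Submodule.span_induction with
  | mem x hx =>
    induction hy using Submodule.span_induction with
    | mem y hy => exact KA.of (W552.AS.mul hx hy)
    | zero => rw [mul_zero]; exact Submodule.zero_mem _
    | add y y' _ _ h h' => rw [mul_add]; exact Submodule.add_mem _ h h'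
    | smul c y _ h => rw [mul_smul_comm]; exact Submodule.smul_mem _ _ h
  | zero => rw [zero_mul]; exact Submodule.zero_mem _
  | add y y' _ _ h h' => rw [add_mul]; exact Submodule.add_mem _ h h'
  | smul c y _ h => rw [smul_mul_assoc]; exact Submodule.smul_mem _ _ h

lemma KA.map (f : X ⟶ Y) {x : W.H Y} (hx : x ∈ KA W Y) : W.map f x ∈ KA W X := by
  induction hx using Submodule.span_induction with
  | mem x hx => exact KA.of (W552.AS.map f hx)
  | zero => rw [map_zero]; exact Submodule.zero_mem _
  | add y y' _ _ h h' => rw [map_add]; exact Submodule.add_mem _ h h'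
  | smul c y _ h => rw [map_smul]; exact Submodule.smul_mem _ _ h

lemma KA.push (f : X ⟶ Y) {x : W.H X} (hx : x ∈ KA W X) : W.push f x ∈ KA W Y := by
  induction hx using Submodule.span_induction with
  | mem x hx => exact KA.of (W552.AS.push f hx)
  | zero => rw [map_zero]; exact Submodule.zero_mem _
  | add y y' _ _ h h' => rw [map_add]; exact Submodule.add_mem _ h h'
  | smul c y _ h => rw [map_smul]; exact Submodule.smul_mem _ _ h

lemma KA.one : (1 : W.H X) ∈ KA W X := KA.of W552.AS.one

lemma AS_even {x : W.H X} (hx : W552.AS W X x) : x ∈ PH W X 0 := by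
  refine W552.AS.ind (p := fun x => x ∈ PH W X 0) ?_ ?_ hx
  · intro j x hx
    exact PH.of' (by omega) (alg_gr hx)
  · intro a b ha hb; exact Submodule.add_mem _ ha hb

lemma KA.even {x : W.H X} (hx : x ∈ KA W X) : x ∈ PH W X 0 := by
  induction hx using Submodule.span_induction with
  | mem x hx => exact AS_even hx
  | zero => exact Submodule.zero_mem _
  | add y y' _ _ h h' => exact Submodule.add_mem _ h h'
  | smul c y _ h => exact Submodule.smul_mem _ _ h

/-- The components of a combination of algebraic classes. -/
lemma KA.proj {x : W.H X} (hx : x ∈ KA W X) (j : ℕ) :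
    H914.proj (W.isInternal X) (2 * j) x ∈ spanCycles W X j := by
  induction hx using Submodule.span_induction with
  | mem x hx =>
    obtain ⟨z, hz, hz'⟩ := W552.AS.proj hx j
    rw [← hz']
    exact Submodule.subset_span ⟨j, rfl, z, hz, rfl⟩
  | zero => rw [map_zero]; exact Submodule.zero_mem _
  | add y y' _ _ h h' => rw [map_add]; exact Submodule.add_mem _ h h'
  | smul c y _ h => rw [map_smul]; exact Submodule.smul_mem _ _ h

lemma KA.span {x : W.H X} (hx : x ∈ KA W X) {j : ℕ} (hj : x ∈ W.gr X (2 * j)) :
    x ∈ spanCycles W X j := by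
  rw [← proj_same (W.isInternal X) hj]
  exact KA.proj hx j

/-- The system of the combinations of algebraic classes. -/
def cyc (W : WeilCohomology.{u, v} ops) : Sys W where
  C := KA W
  even := KA.even
  one _ := KA.one
  mul := KA.mul
  map := KA.map
  push := KA.push

end Pool.Agent.R910
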